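import Pool.Agent.LeoT.Stmts
import Pool.Agent.Helper68_LeoC.Com
import Pool.Agent.Helper2_LeoK.Inh

/-!
# Squad LEOT, module INR: the prime above `l` is inert in `k(√(3m))`

MP_5f2860_nt.
-/

set_option autoImplicit false

open NumberField IsDedekindDomain Module
open Pool.Agent.Helper85_Leo Pool.Agent.Leo3 Pool.Agent.LeoK Pool.Agent.LeoG Pool.Agent.LeoC

namespace Pool.Agent.LeoT.H2

/-- `-3` is not a square in a finite field with `2` modulo `3` elements. -/
lemma noroot {κ : Type} [Field κ] [Finite κ] (h : Nat.card κ % 3 = 2) (h2 : (2 : κ) ≠ 0)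
    (h3 : (3 : κ) ≠ 0) (y : κ) : y ^ 2 ≠ -3 := by
  intro hy
  have h4 : (4 : κ) ≠ 0 := by
    have : (4 : κ) = 2 * 2 := by norm_num
    rw [this]
    exact mul_ne_zero h2 h2
  set w : κ := (-1 + y) / 2 with hw
  have hw2 : 2 * w = -1 + y := by
    rw [hw]
    field_simp
  have hq : w ^ 2 + w + 1 = 0 := by
    have h5 : 4 * (w ^ 2 + w + 1) = 0 := by
      have h6 : 4 * (w ^ 2 + w + 1) = (2 * w) ^ 2 + 2 * (2 * w) + 4 := by ring
      rw [h6, hw2]
      linear_combination hy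
    exact (mul_eq_zero.1 h5).resolve_left h4
  have hw3 : w ^ 3 = 1 := by linear_combination (w - 1) * hq
  have hw1 : w ≠ 1 := by
    intro h1
    rw [h1] at hq
    apply h3
    linear_combination hq
  have hw0 : w ≠ 0 := by
    intro h0
    rw [h0] at hq
    apply one_ne_zero (α := κ)
    linear_combination hq
  have hord : orderOf (Units.mk0 w hw0) = 3 := by
    have h7 : orderOf (Units.mk0 w hw0) ∣ 3 := by
      apply orderOf_dvd_of_pow_eq_one
      ext
      rw [Units.val_pow_eq_pow_val, Units.val_mk0, hw3, Units.val_one]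
    rcases (Nat.dvd_prime Nat.prime_three).1 h7 with h8 | h8
    · rw [orderOf_eq_one_iff] at h8
      exact absurd (congrArg Units.val h8) hw1
    · exact h8
  have hdvd : 3 ∣ Nat.card κˣ := by
    rw [← hord]
    exact orderOf_dvd_natCard _
  rw [Nat.card_units] at hdvd
  omega

/-- The quadratic form `3 m a² - B²` is anisotropic modulo `q`. -/
lemma aniso {k : Type} [Field k] [NumberField k] (m : 𝓞 k) (l : ℕ) (q : HeightOneSpectrum (𝓞 k))
    (x : 𝓞 k) (hl : l.Prime) (hl3 : 3 < l) (hlq : (l : 𝓞 k) ∈ q.asIdeal)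
    (hN : Ideal.absNorm q.asIdeal % 3 = 2) (hx : x ∉ q.asIdeal) (hxm : x ^ 2 + m ∈ q.asIdeal)
    (a B : 𝓞 k) (h : 3 * m * a ^ 2 - B ^ 2 ∈ q.asIdeal) : a ∈ q.asIdeal ∧ B ∈ q.asIdeal := by
  have hmax : q.asIdeal.IsMaximal := q.isMaximal
  let _ : Field (𝓞 k ⧸ q.asIdeal) := Ideal.Quotient.field q.asIdeal
  have hfin : Finite (𝓞 k ⧸ q.asIdeal) := q.asIdeal.finiteQuotientOfFreeOfNeBot q.ne_bot
  have hcop : ∀ n : ℕ, n.Coprime l → ((n : ℕ) : 𝓞 k) ∉ q.asIdeal := by
    intro n hn hnq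
    obtain ⟨u, v, huv⟩ := Nat.isCoprime_iff_coprime.2 hn
    apply q.isPrime.ne_top
    rw [Ideal.eq_top_iff_one]
    have h1 : (1 : 𝓞 k) = (u : 𝓞 k) * (n : 𝓞 k) + (v : 𝓞 k) * (l : 𝓞 k) := by
      have := congrArg (fun z : ℤ => (z : 𝓞 k)) huv
      simp only [Int.cast_add, Int.cast_mul, Int.cast_natCast, Int.cast_one] at this
      exact this.symm
    rw [h1]
    exact Ideal.add_mem _ (Ideal.mul_mem_left _ _ hnq) (Ideal.mul_mem_left _ _ hlq)
  have h2q : (2 : 𝓞 k) ∉ q.asIdeal := by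
    have := hcop 2 ((Nat.coprime_primes Nat.prime_two hl).2 (by omega))
    exact_mod_cast this
  have h3q : (3 : 𝓞 k) ∉ q.asIdeal := by
    have := hcop 3 ((Nat.coprime_primes Nat.prime_three hl).2 (by omega))
    exact_mod_cast this
  set π := Ideal.Quotient.mk q.asIdeal with hπ
  have hz : ∀ z : 𝓞 k, z ∈ q.asIdeal ↔ π z = 0 := fun z => Ideal.Quotient.eq_zero_iff_mem.symm
  rw [hz, map_sub, map_mul, map_mul, map_pow, map_pow] at h
  rw [hz, map_add, map_pow] at hxm
  rw [hz] at hx h2q h3q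
  rw [map_ofNat] at h h2q h3q
  have ha : π a = 0 := by
    by_contra ha
    refine noroot (κ := 𝓞 k ⧸ q.asIdeal) hN h2q h3q (π B / (π a * π x)) ?_
    rw [div_pow, div_eq_iff (pow_ne_zero 2 (mul_ne_zero ha hx))]
    linear_combination -h + 3 * (π a) ^ 2 * hxm
  refine ⟨(hz a).2 ha, (hz B).2 ?_⟩
  rw [ha] at h
  have h5 : (π B) ^ 2 = 0 := by linear_combination -h
  exact pow_eq_zero_iff two_ne_zero |>.1 h5

/-- INR -/
theorem inr : InrStmt := by
  intro k F _ _ _ _ _ m r l q x h2 hr hl hl3 hk hlq hN hx hxm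
  have han := aniso m l q x hl hl3 hlq hN hx hxm
  have hcop : ∀ n : ℕ, n.Coprime l → ∀ (P : HeightOneSpectrum (𝓞 F)), (l : 𝓞 F) ∈ P.asIdeal →
      ((n : ℕ) : 𝓞 F) ∉ P.asIdeal := by
    intro n hn P hlP hnq
    obtain ⟨u, v, huv⟩ := Nat.isCoprime_iff_coprime.2 hn
    apply P.isPrime.ne_top
    rw [Ideal.eq_top_iff_one]
    have h1 : (1 : 𝓞 F) = (u : 𝓞 F) * (n : 𝓞 F) + (v : 𝓞 F) * (l : 𝓞 F) := by
      have := congrArg (fun z : ℤ => (z : 𝓞 F)) huv
      simp only [Int.cast_add, Int.cast_mul, Int.cast_natCast, Int.cast_one] at this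
      exact this.symm
    rw [h1]
    exact Ideal.add_mem _ (Ideal.mul_mem_left _ _ hnq) (Ideal.mul_mem_left _ _ hlP)
  have hinj := (algebraMap k F).injective
  have hr' : r ^ 2 = algebraMap k F (3 * algebraMap (𝓞 k) k m) := hr
  set M : k := algebraMap (𝓞 k) k m with hM
  have h3m : algebraMap (𝓞 k) k (3 * m) = 3 * M := by
    rw [map_mul, map_ofNat]
  have h3mi : IsIntegral ℤ (3 * M) := by
    rw [← h3m]
    exact RingOfIntegers.isIntegral_coe (3 * m)
  have hext : ∀ y z : 𝓞 k, algebraMap (𝓞 k) k y = algebraMap (𝓞 k) k z → y = z :=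
    fun y z h => RingOfIntegers.coe_injective h
  have hextF : ∀ y z : 𝓞 F, algebraMap (𝓞 F) F y = algebraMap (𝓞 F) F z → y = z :=
    fun y z h => RingOfIntegers.coe_injective h
  have hmk : ∀ (y : k) (hy : IsIntegral ℤ y), ∃ z : 𝓞 k, algebraMap (𝓞 k) k z = y :=
    fun y hy => ⟨⟨y, hy⟩, rfl⟩
  have hmkF : ∀ (y : F) (hy : IsIntegral ℤ y), ∃ z : 𝓞 F, algebraMap (𝓞 F) F z = y :=
    fun y hy => ⟨⟨y, hy⟩, rfl⟩
  -- `3 m` is not a square
  have hns : ∀ y : k, y ^ 2 ≠ 3 * M := by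
    intro y hy
    obtain ⟨z, hz⟩ := hmk y (by
      apply IsIntegral.of_pow two_pos
      rw [hy]
      exact h3mi)
    have h5 := (han 1 z (by
      have h6 : 3 * m * 1 ^ 2 - z ^ 2 = 0 := by
        apply hext
        rw [map_sub, map_mul, map_pow, map_pow, map_one, map_zero, hz, hy, h3m]
        ring
      rw [h6]
      exact Ideal.zero_mem _)).1
    exact q.isPrime.ne_top ((Ideal.eq_top_iff_one _).2 h5)
  have hrk : ∀ y : k, algebraMap k F y ≠ r := by
    intro y hy
    apply hns y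
    apply hinj
    rw [map_pow, hy, hr']
  obtain ⟨f, hf⟩ := Pool.Agent.LeoC.H68.quad_lift (E := F) h2 hr' hns (r' := -r)
    (by rw [neg_sq, hr'])
  have hri : IsIntegral ℤ r := by
    apply IsIntegral.of_pow two_pos
    rw [hr']
    exact h3mi.map (algebraMap k F).toIntAlgHom
  obtain ⟨R, hR⟩ := hmkF r hri
  -- the primes above `l` lie above `q`
  have hover : ∀ P : HeightOneSpectrum (𝓞 F), (l : 𝓞 F) ∈ P.asIdeal → ∀ z : 𝓞 k,
      algebraMap (𝓞 k) (𝓞 F) z ∈ P.asIdeal ↔ z ∈ q.asIdeal := by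
    intro P hP z
    have hprime : (P.asIdeal.comap (algebraMap (𝓞 k) (𝓞 F))).IsPrime := by
      have := P.isPrime
      infer_instance
    have hmem : (l : 𝓞 k) ∈ P.asIdeal.comap (algebraMap (𝓞 k) (𝓞 F)) := by
      rw [Ideal.mem_comap, map_natCast]
      exact hP
    have hl0 : (l : 𝓞 k) ≠ 0 := by
      exact_mod_cast hl.ne_zero
    have hne : P.asIdeal.comap (algebraMap (𝓞 k) (𝓞 F)) ≠ ⊥ := by
      intro h0
      rw [h0, Ideal.mem_bot] at hmem
      exact hl0 hmem
    have heq := hk ⟨_, hprime, hne⟩ q hmem hlq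
    have h5 : P.asIdeal.comap (algebraMap (𝓞 k) (𝓞 F)) = q.asIdeal :=
      congrArg HeightOneSpectrum.asIdeal heq
    rw [← h5, Ideal.mem_comap]
  have hcoe : ∀ z : 𝓞 k, algebraMap (𝓞 F) F (algebraMap (𝓞 k) (𝓞 F) z) =
      algebraMap k F (algebraMap (𝓞 k) k z) := by
    intro z
    rw [← IsScalarTower.algebraMap_apply (𝓞 k) (𝓞 F) F, ← IsScalarTower.algebraMap_apply (𝓞 k) k F]
  have hle : ∀ P Q : HeightOneSpectrum (𝓞 F), (l : 𝓞 F) ∈ P.asIdeal → (l : 𝓞 F) ∈ Q.asIdeal →
      P.asIdeal ≤ Q.asIdeal := by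
    intro P Q hP hQ u hu
    obtain ⟨α, β, hab⟩ := Pool.Agent.LeoK.H2.quad_span' h2 hrk (algebraMap (𝓞 F) F u)
    set U : F := algebraMap (𝓞 F) F u with hU
    have hui : IsIntegral ℤ U := RingOfIntegers.isIntegral_coe u
    have hfi : IsIntegral ℤ (f U) := hui.map (f : F →+* F).toIntAlgHom
    have hfu : f U = algebraMap k F α - algebraMap k F β * r := by
      rw [hab, map_add, map_mul, AlgHom.commutes, AlgHom.commutes, hf]
      ring
    have h3a : algebraMap k F (2 * α) = U + f U := by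
      rw [hfu, hab, map_mul, map_ofNat]
      ring
    have h3N : algebraMap k F (α ^ 2 - 3 * M * β ^ 2) = U * f U := by
      rw [hfu, hab, map_sub, map_mul, map_pow, map_pow, ← hr']
      ring
    have h3B : algebraMap k F (6 * M * β) = (U - f U) * r := by
      have h4 : algebraMap k F (6 * M * β) =
          2 * algebraMap k F β * algebraMap k F (3 * M) := by
        rw [← map_ofNat (algebraMap k F) 2, ← map_mul, ← map_mul]
        congr 1
        ring
      rw [h4, hfu, hab, ← hr']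
      ring
    obtain ⟨a, hac⟩ := hmk (2 * α) ((isIntegral_algebraMap_iff (A := k) (B := F) hinj).1 (by
      rw [h3a]
      exact hui.add hfi))
    obtain ⟨N, hNc⟩ := hmk (α ^ 2 - 3 * M * β ^ 2)
      ((isIntegral_algebraMap_iff (A := k) (B := F) hinj).1 (by
        rw [h3N]
        exact hui.mul hfi))
    obtain ⟨B, hBc⟩ := hmk (6 * M * β) ((isIntegral_algebraMap_iff (A := k) (B := F) hinj).1 (by
      rw [h3B]
      exact (hui.sub hfi).mul hri))
    obtain ⟨v, hv⟩ := hmkF (f U) hfi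
    have hNq : N ∈ q.asIdeal := by
      rw [← hover P hP]
      have h3 : algebraMap (𝓞 k) (𝓞 F) N = u * v := by
        apply hextF
        rw [hcoe, map_mul, hNc, hv, h3N]
      rw [h3]
      exact P.asIdeal.mul_mem_right _ hu
    obtain ⟨haq, hBq⟩ := han a B (by
      have h3 : 3 * m * a ^ 2 - B ^ 2 = 12 * m * N := by
        apply hext
        simp only [map_sub, map_mul, map_pow, map_ofNat]
        rw [hac, hNc, hBc, ← hM]
        ring
      rw [h3]
      exact Ideal.mul_mem_left _ _ hNq)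
    have haQ := (hover Q hQ a).2 haq
    have hBQ := (hover Q hQ B).2 hBq
    have hrQ : R ∉ Q.asIdeal := by
      intro h3
      have h4 : algebraMap (𝓞 k) (𝓞 F) (3 * m) ∈ Q.asIdeal := by
        have h5 : algebraMap (𝓞 k) (𝓞 F) (3 * m) = R ^ 2 := by
          apply hextF
          rw [hcoe, map_pow, hR, hr', h3m]
        rw [h5]
        exact Ideal.pow_mem_of_mem _ h3 2 two_pos
      have h5 := (hover Q hQ (3 * m)).1 h4
      have h6 := (han 1 0 (by
        have h7 : 3 * m * 1 ^ 2 - 0 ^ 2 = 3 * m := by ring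
        rw [h7]
        exact h5)).1
      exact q.isPrime.ne_top ((Ideal.eq_top_iff_one _).2 h6)
    have h7 : (2 * u - algebraMap (𝓞 k) (𝓞 F) a) * R ∈ Q.asIdeal := by
      have h8 : (2 * u - algebraMap (𝓞 k) (𝓞 F) a) * R = algebraMap (𝓞 k) (𝓞 F) B := by
        apply hextF
        rw [hcoe, map_mul, map_sub, map_mul, map_ofNat, hcoe, hac, hBc, hR, h3B, h3a, ← hU]
        ring
      rw [h8]
      exact hBQ
    have h9 := (Q.isPrime.mem_or_mem h7).resolve_right hrQ
    have h10 : 2 * u ∈ Q.asIdeal := by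
      have := Ideal.add_mem _ h9 haQ
      rwa [sub_add_cancel] at this
    refine (Q.isPrime.mem_or_mem h10).resolve_left ?_
    have := hcop 2 ((Nat.coprime_primes Nat.prime_two hl).2 (by omega)) Q hQ
    exact_mod_cast this
  intro P Q hP hQ
  apply HeightOneSpectrum.ext
  exact P.isMaximal.eq_of_le Q.isPrime.ne_top (hle P Q hP hQ)

end Pool.Agent.LeoT.H2
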