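import Pool.Agent.LeoT.Stmts

/-!
# Squad LEOT, module SQC: classes `m` such that `-m` is not a nonzero square

MP_5f2860_nt.
-/

set_option autoImplicit false

open NumberField IsDedekindDomain Module
open Pool.Agent.Helper85_Leo Pool.Agent.Leo3 Pool.Agent.LeoK Pool.Agent.LeoG Pool.Agent.LeoC

namespace Pool.Agent.LeoT.H2

open Classical in
/-- the elements `y` of a finite field such that `-y` is not a nonzero square -/
lemma sq_card (κ : Type) [Field κ] [Fintype κ] (T : Set κ)
    (hT : ∀ y ∈ T, ∀ x : κ, x ≠ 0 → x ^ 2 + y ≠ 0) : 2 * T.ncard ≤ Fintype.card κ + 1 := by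
  set s : Finset κ := Finset.univ.erase 0 with hs
  set I : Finset κ := s.image (fun x => -(x ^ 2)) with hI
  have h1 : s.card ≤ 2 * I.card := by
    apply Finset.card_le_mul_card_image
    intro a ha
    obtain ⟨x, hx, rfl⟩ := Finset.mem_image.1 ha
    have h2 : s.filter (fun y => -(y ^ 2) = -(x ^ 2)) ⊆ {x, -x} := by
      intro y hy
      have h3 := (Finset.mem_filter.1 hy).2
      have h4 : (y - x) * (y + x) = 0 := by linear_combination -h3
      rw [Finset.mem_insert, Finset.mem_singleton]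
      rcases mul_eq_zero.1 h4 with h5 | h5
      · exact Or.inl (sub_eq_zero.1 h5)
      · exact Or.inr (eq_neg_of_add_eq_zero_left h5)
    exact (Finset.card_le_card h2).trans Finset.card_le_two
  have h2 : s.card = Fintype.card κ - 1 := by
    rw [hs, Finset.card_erase_of_mem (Finset.mem_univ _), Finset.card_univ]
  have h3 : Disjoint T.toFinset I := by
    rw [Finset.disjoint_left]
    intro y hy hyI
    obtain ⟨x, hx, rfl⟩ := Finset.mem_image.1 hyI
    refine hT _ (Set.mem_toFinset.1 hy) x (Finset.ne_of_mem_erase hx) ?_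
    ring
  have h4 : T.toFinset.card + I.card ≤ Fintype.card κ := by
    rw [← Finset.card_union_of_disjoint h3]
    exact Finset.card_le_univ _
  have h5 : T.ncard = T.toFinset.card := Set.ncard_eq_toFinset_card' T
  have h6 : 0 < Fintype.card κ := Fintype.card_pos
  omega

/-- SQC -/
theorem sqc : SqcStmt := by
  intro k _ _ p _
  have hmax : p.asIdeal.IsMaximal := p.isMaximal
  let _ : Field (𝓞 k ⧸ p.asIdeal) := Ideal.Quotient.field p.asIdeal
  have hfin : Finite (𝓞 k ⧸ p.asIdeal) := p.asIdeal.finiteQuotientOfFreeOfNeBot p.ne_bot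
  let _ : Fintype (𝓞 k ⧸ p.asIdeal) := Fintype.ofFinite _
  have h := sq_card (𝓞 k ⧸ p.asIdeal) (Ideal.Quotient.mk p.asIdeal ''
      {m : 𝓞 k | ¬ ∃ x : 𝓞 k, x ∉ p.asIdeal ∧ x ^ 2 + m ∈ p.asIdeal}) (by
    rintro _ ⟨m, hm, rfl⟩ y hy hym
    obtain ⟨x, rfl⟩ := Ideal.Quotient.mk_surjective y
    refine hm ⟨x, fun hx => hy (Ideal.Quotient.eq_zero_iff_mem.2 hx), ?_⟩
    rw [← map_pow, ← map_add] at hym
    exact Ideal.Quotient.eq_zero_iff_mem.1 hym)
  have hN : np p = (Fintype.card (𝓞 k ⧸ p.asIdeal) : ℝ) := by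
    rw [← Nat.card_eq_fintype_card]
    rfl
  rw [hN]
  exact_mod_cast h

end Pool.Agent.LeoT.H2
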